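import Pool.Agent.H61.AR.Targets
import Pool.Agent.H60.CM.Basic

/-!
# (FLU) the area of the projection and the flux
-/

set_option autoImplicit false

open Set Function MeasureTheory Filter Topology
open scoped Manifold ContDiff Matrix

namespace Pool.Agent.H17.AR

open Pool.Agent.H60.CM Pool.Agent.H61.AR

theorem flu_int (D : Dat) (f : D.S → ℝ) (hf : Continuous f) : IntegrableOn f D.int D.μ := by
  have h1 : Integrable f D.μ :=
    hf.integrable_of_hasCompactSupport (HasCompactSupport.of_compactSpace f)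
  exact h1.integrableOn

theorem pf_FLU (h1 : T_SYM) (h2 : T_AL2) (h3 : T_CON) : T_FLU := by
  intro D γ s hB hG
  have hr : D.r ≠ 0 := D.cmc.r_pos.ne'
  have hms : MeasurableSet D.int := (Dat.int_open D).measurableSet
  have hx : ∀ p, MD D.x p := fun p => Dat.Sm.md D D.smx p
  have hN : ∀ p, MD D.N p := fun p => Dat.Sm.md D D.smN p
  have sx : ∀ k : Fin 3, D.Sm (fun q => D.x q k) := fun k => Dat.Sm.coord D D.smx k
  have sN : ∀ k : Fin 3, D.Sm (fun q => D.N q k) := fun k => Dat.Sm.coord D D.smN k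
  have hBc : ∀ k : Fin 3, ContDiff ℝ ∞ (fun y : V3 => y k) := fun k => contDiff_apply ℝ ℝ k
  have d0 : ∀ θ : ℝ, deriv (fun τ => cpt D.r τ 0) θ = -(D.r * Real.sin θ) := by
    intro θ
    have e : (fun τ => cpt D.r τ 0) = fun τ => D.r * Real.cos τ := rfl
    rw [e]
    have := ((Real.hasDerivAt_cos θ).const_mul D.r).deriv
    rw [this]
    ring
  have d1 : ∀ θ : ℝ, deriv (fun τ => cpt D.r τ 1) θ = D.r * Real.cos θ := by
    intro θ
    have e : (fun τ => cpt D.r τ 1) = fun τ => D.r * Real.sin τ := rfl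
    rw [e]
    exact ((Real.hasDerivAt_sin θ).const_mul D.r).deriv
  -- the area of the projection
  have hA : ∫ p in D.int, D.N p 2 ∂D.μ = s * (Real.pi * D.r ^ 2) := by
    have e1 := hG.2 (fun q => D.x q 0) (fun y => y 1) (sx 0) (hBc 1)
    have e2 : ∫ p in D.int, br D.x D.N (fun q => D.x q 0) (fun q => D.x q 1) p ∂D.μ =
        ∫ p in D.int, D.N p 2 ∂D.μ := by
      refine setIntegral_congr_fun hms fun p hp => ?_
      have k3 := (h2 _ _ _ _ _ _ (h1 D p hp)).2
      change brk (dd D.x p 0) (dd D.x p 1) (D.N p) (dd (fun q => D.x q 0) p 0)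
        (dd (fun q => D.x q 0) p 1) (dd (fun q => D.x q 1) p 0) (dd (fun q => D.x q 1) p 1) =
        D.N p 2
      rw [dd_coord (hx p), dd_coord (hx p), dd_coord (hx p), dd_coord (hx p)]
      exact k3
    have e1' : ∫ p in D.int, br D.x D.N (fun q => D.x q 0) (fun q => D.x q 1) p ∂D.μ =
        s * ∫ θ in (0 : ℝ)..(2 * Real.pi), D.x (γ θ) 0 * deriv (fun τ => cpt D.r τ 1) θ := e1
    rw [← e2, e1']
    congr 1
    have e4 : ∀ θ : ℝ, D.x (γ θ) 0 * deriv (fun τ => cpt D.r τ 1) θ =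
        D.r ^ 2 * Real.cos θ ^ 2 := by
      intro θ
      rw [d1, hB.eq θ]
      have : cpt D.r θ 0 = D.r * Real.cos θ := rfl
      rw [this]
      ring
    simp only [e4]
    rw [intervalIntegral.integral_const_mul, integral_cos_sq]
    rw [Real.cos_two_pi, Real.sin_two_pi, Real.sin_zero]
    ring
  refine ⟨hA, ?_⟩
  -- the flux
  have f0 := hG.2 (fun q => D.N q 1) (fun y => y 0) (sN 1) (hBc 0)
  have f1 := hG.2 (fun q => -D.N q 0) (fun y => y 1) (Dat.Sm.neg D (sN 0)) (hBc 1)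
  have g0 : ∫ p in D.int, br D.x D.N (fun q => D.N q 1) (fun q => D.x q 0) p ∂D.μ =
      s * ∫ θ in (0 : ℝ)..(2 * Real.pi), D.N (γ θ) 1 * deriv (fun τ => cpt D.r τ 0) θ := f0
  have g1 : ∫ p in D.int, br D.x D.N (fun q => -D.N q 0) (fun q => D.x q 1) p ∂D.μ =
      s * ∫ θ in (0 : ℝ)..(2 * Real.pi), -D.N (γ θ) 0 * deriv (fun τ => cpt D.r τ 1) θ := f1
  simp only [d0] at g0
  simp only [d1] at g1
  have i0 : IntegrableOn (br D.x D.N (fun q => D.N q 1) (fun q => D.x q 0)) D.int D.μ :=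
    flu_int D _ (h3 D _ _ (sN 1) (sx 0)).2
  have i1 : IntegrableOn (br D.x D.N (fun q => -D.N q 0) (fun q => D.x q 1)) D.int D.μ :=
    flu_int D _ (h3 D _ _ (Dat.Sm.neg D (sN 0)) (sx 1)).2
  have hsum : ∫ p in D.int, (br D.x D.N (fun q => D.N q 1) (fun q => D.x q 0) p +
      br D.x D.N (fun q => -D.N q 0) (fun q => D.x q 1) p) ∂D.μ =
      ∫ p in D.int, 2 * D.H * D.N p 2 ∂D.μ := by
    refine setIntegral_congr_fun hms fun p hp => ?_
    have k3 := (h2 _ _ _ _ _ _ (h1 D p hp)).1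
    rw [Fin.sum_univ_three] at k3
    have c0 : ∀ n : V3, (n ⨯₃ Pool.Agent.H60.CM.e3) 0 = n 1 := by
      intro n
      simp [crossProduct, Pool.Agent.H60.CM.e3]
    have c1 : ∀ n : V3, (n ⨯₃ Pool.Agent.H60.CM.e3) 1 = -n 0 := by
      intro n
      simp [crossProduct, Pool.Agent.H60.CM.e3]
    have c2 : ∀ n : V3, (n ⨯₃ Pool.Agent.H60.CM.e3) 2 = 0 := by
      intro n
      simp [crossProduct, Pool.Agent.H60.CM.e3]
    rw [c0, c0, c1, c1, c2, c2] at k3
    have e4 : brk (dd D.x p 0) (dd D.x p 1) (D.N p) 0 0 (dd D.x p 0 2) (dd D.x p 1 2) = 0 := by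
      unfold brk
      rw [zero_mul, zero_mul, sub_zero, zero_div]
    rw [e4, add_zero] at k3
    change brk (dd D.x p 0) (dd D.x p 1) (D.N p) (dd (fun q => D.N q 1) p 0)
        (dd (fun q => D.N q 1) p 1) (dd (fun q => D.x q 0) p 0) (dd (fun q => D.x q 0) p 1) +
      brk (dd D.x p 0) (dd D.x p 1) (D.N p) (dd (fun q => -D.N q 0) p 0)
        (dd (fun q => -D.N q 0) p 1) (dd (fun q => D.x q 1) p 0) (dd (fun q => D.x q 1) p 1) =
      2 * D.H * D.N p 2
    rw [dd_neg ((hN p).coord 0), dd_neg ((hN p).coord 0), dd_coord (hx p), dd_coord (hx p),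
      dd_coord (hx p), dd_coord (hx p), dd_coord (hN p), dd_coord (hN p), dd_coord (hN p),
      dd_coord (hN p)]
    exact k3
  rw [integral_add i0 i1, g0, g1, integral_const_mul, hA] at hsum
  have hc : ∀ k : Fin 3, Continuous fun θ => D.N (γ θ) k := fun k =>
    (Dat.Sm.cont D (sN k)).comp hB.cont
  have hnr : ∫ θ in (0 : ℝ)..(2 * Real.pi), nr D γ θ =
      (∫ θ in (0 : ℝ)..(2 * Real.pi), D.N (γ θ) 0 * Real.cos θ) +
      ∫ θ in (0 : ℝ)..(2 * Real.pi), D.N (γ θ) 1 * Real.sin θ := by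
    unfold nr
    exact intervalIntegral.integral_add
      (((hc 0).mul Real.continuous_cos).intervalIntegrable _ _)
      (((hc 1).mul Real.continuous_sin).intervalIntegrable _ _)
  have k0 : ∫ θ in (0 : ℝ)..(2 * Real.pi), D.N (γ θ) 1 * -(D.r * Real.sin θ) =
      -D.r * ∫ θ in (0 : ℝ)..(2 * Real.pi), D.N (γ θ) 1 * Real.sin θ := by
    rw [← intervalIntegral.integral_const_mul]
    refine intervalIntegral.integral_congr fun θ _ => ?_
    change D.N (γ θ) 1 * -(D.r * Real.sin θ) = -D.r * (D.N (γ θ) 1 * Real.sin θ)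
    ring
  have k1 : ∫ θ in (0 : ℝ)..(2 * Real.pi), -D.N (γ θ) 0 * (D.r * Real.cos θ) =
      -D.r * ∫ θ in (0 : ℝ)..(2 * Real.pi), D.N (γ θ) 0 * Real.cos θ := by
    rw [← intervalIntegral.integral_const_mul]
    refine intervalIntegral.integral_congr fun θ _ => ?_
    change -D.N (γ θ) 0 * (D.r * Real.cos θ) = -D.r * (D.N (γ θ) 0 * Real.cos θ)
    ring
  rw [k0, k1] at hsum
  rw [hnr]
  have hfin : D.r * (s * ((∫ θ in (0 : ℝ)..(2 * Real.pi), D.N (γ θ) 0 * Real.cos θ) +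
      (∫ θ in (0 : ℝ)..(2 * Real.pi), D.N (γ θ) 1 * Real.sin θ) + 2 * Real.pi * D.H * D.r)) =
      0 := by
    linear_combination -hsum
  exact (mul_eq_zero.1 hfin).resolve_left hr

end Pool.Agent.H17.AR
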