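import Pool.Agent.H61.AR.Targets

/-!
# (LCB) the length of the projection of the circle from a point is at most `2 π`
-/

set_option autoImplicit false

open Set Function MeasureTheory Filter Topology
open scoped Manifold ContDiff Matrix

namespace Pool.Agent.H17.AR

open Pool.Agent.H60.CM Pool.Agent.H61.AR

/-- the pointwise bound -/
theorem lcb_pt {r q D T p c2 u v e : ℝ} (hr : 0 < r) (hq : 0 < q) (hD : 0 < D)
    (hDT : D ^ 2 = T ^ 2 + 4 * r ^ 2 * c2 ^ 2) (hqT : q = T + 2 * r * p)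
    (huv : u ^ 2 + v ^ 2 = 1) (he : 0 ≤ e) :
    |r * (v * p + u * c2) / (q + e)| ≤ 1 / 2 + D / 2 * (1 / q) := by
  have hTD : 0 ≤ T + D := by
    have h1 : T ^ 2 ≤ D ^ 2 := by
      rw [hDT]
      nlinarith [sq_nonneg (r * c2)]
    have h2 := abs_le_of_sq_le_sq' h1 hD.le
    linarith [h2.1]
  have h1 : (2 * r * (v * p + u * c2)) ^ 2 ≤ (q + D) ^ 2 := by
    have e1 : (v * p + u * c2) ^ 2 ≤ p ^ 2 + c2 ^ 2 := by
      have : p ^ 2 + c2 ^ 2 - (v * p + u * c2) ^ 2 = (u * p - v * c2) ^ 2 := by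
        linear_combination (-(p ^ 2 + c2 ^ 2)) * huv
      nlinarith [sq_nonneg (u * p - v * c2)]
    have e2 : (2 * r * (v * p + u * c2)) ^ 2 ≤ 4 * r ^ 2 * (p ^ 2 + c2 ^ 2) := by
      have : (2 * r * (v * p + u * c2)) ^ 2 = 4 * r ^ 2 * (v * p + u * c2) ^ 2 := by ring
      rw [this]
      exact mul_le_mul_of_nonneg_left e1 (by positivity)
    have e3 : (q + D) ^ 2 - 4 * r ^ 2 * (p ^ 2 + c2 ^ 2) = 2 * (T + D) * q := by
      have e4 : 2 * r * p = q - T := by rw [hqT]; ring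
      have e5 : 4 * r ^ 2 * p ^ 2 = (q - T) ^ 2 := by rw [← e4]; ring
      linear_combination hDT - e5
    have e6 : 0 ≤ 2 * (T + D) * q := by positivity
    linarith
  have h2 : |2 * r * (v * p + u * c2)| ≤ q + D := abs_le_of_sq_le_sq h1 (by linarith)
  have h3 : |r * (v * p + u * c2)| ≤ (q + D) / 2 := by
    have e1 : |2 * r * (v * p + u * c2)| = 2 * |r * (v * p + u * c2)| := by
      rw [mul_assoc, abs_mul, abs_of_pos (by norm_num : (0 : ℝ) < 2)]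
    linarith
  rw [abs_div, abs_of_pos (by linarith : 0 < q + e)]
  have h4 : 1 / 2 + D / 2 * (1 / q) = (q + D) / 2 / q := by
    field_simp
  rw [h4]
  refine div_le_div₀ (by positivity) h3 hq (by linarith)

theorem pf_LCB (h1 : T_PSN) : T_LCB := by
  intro r c ε u v hr hc hε hu hv huv
  obtain ⟨a, ha⟩ : ∃ a : ℝ, a = r ^ 2 + (c 0 ^ 2 + c 1 ^ 2 + c 2 ^ 2) := ⟨_, rfl⟩
  obtain ⟨b₁, hb₁⟩ : ∃ b : ℝ, b = 2 * r * c 0 := ⟨_, rfl⟩
  obtain ⟨b₂, hb₂⟩ : ∃ b : ℝ, b = 2 * r * c 1 := ⟨_, rfl⟩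
  obtain ⟨T, hT⟩ : ∃ T : ℝ, T = a - 2 * r ^ 2 := ⟨_, rfl⟩
  have hr2 : 0 < r ^ 2 := by positivity
  have ha0 : 0 < a := by
    rw [ha]
    positivity
  have hD2 : a ^ 2 - b₁ ^ 2 - b₂ ^ 2 = T ^ 2 + 4 * r ^ 2 * c 2 ^ 2 := by
    rw [hT, hb₁, hb₂, ha]
    ring
  have hD2pos : 0 < a ^ 2 - b₁ ^ 2 - b₂ ^ 2 := by
    rw [hD2]
    by_contra hcon
    push Not at hcon
    have e1 : 0 ≤ T ^ 2 := sq_nonneg _
    have e2 : 0 ≤ 4 * r ^ 2 * c 2 ^ 2 := by positivity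
    have e3 : T ^ 2 = 0 := by linarith
    have e4 : 4 * r ^ 2 * c 2 ^ 2 = 0 := by linarith
    have e5 : T = 0 := pow_eq_zero_iff (two_ne_zero) |>.1 e3
    have e6 : c 2 ^ 2 = 0 := by
      rcases mul_eq_zero.1 e4 with h | h
      · exact absurd h (by positivity)
      · exact h
    have e7 : c 2 = 0 := pow_eq_zero_iff (two_ne_zero) |>.1 e6
    refine hc ⟨e7, ?_⟩
    have e8 : c ⬝ᵥ c = c 0 * c 0 + c 1 * c 1 + c 2 * c 2 := by
      simp [dotProduct, Fin.sum_univ_three]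
    rw [e8]
    rw [hT, ha] at e5
    linear_combination e5
  have hsq : ∀ θ : ℝ, Real.cos θ ^ 2 + Real.sin θ ^ 2 = 1 := Real.cos_sq_add_sin_sq
  have hqpos : ∀ θ : ℝ, 0 < a - b₁ * Real.cos θ - b₂ * Real.sin θ := by
    intro θ
    have e1 : (b₁ * Real.cos θ + b₂ * Real.sin θ) ^ 2 < a ^ 2 := by
      have e2 : b₁ ^ 2 + b₂ ^ 2 - (b₁ * Real.cos θ + b₂ * Real.sin θ) ^ 2 =
          (b₁ * Real.sin θ - b₂ * Real.cos θ) ^ 2 := by
        linear_combination (-(b₁ ^ 2 + b₂ ^ 2)) * hsq θ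
      nlinarith [sq_nonneg (b₁ * Real.sin θ - b₂ * Real.cos θ)]
    have e3 := abs_lt_of_sq_lt_sq' e1 ha0.le
    linarith [e3.2]
  obtain ⟨D, hD⟩ : ∃ D : ℝ, D = Real.sqrt (a ^ 2 - b₁ ^ 2 - b₂ ^ 2) := ⟨_, rfl⟩
  have hDpos : 0 < D := by
    rw [hD]
    exact Real.sqrt_pos.2 hD2pos
  have hDsq : D ^ 2 = T ^ 2 + 4 * r ^ 2 * c 2 ^ 2 := by
    rw [hD, Real.sq_sqrt hD2pos.le, hD2]
  have hpsn := h1 a b₁ b₂ ha0 (by linarith)
  rw [← hD] at hpsn
  have hsqd : ∀ θ, sqd (cpt r θ) c = a - b₁ * Real.cos θ - b₂ * Real.sin θ := by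
    intro θ
    unfold sqd cpt
    rw [ha, hb₁, hb₂]
    simp only [dotProduct, Fin.sum_univ_three, Pi.sub_apply, Matrix.cons_val_zero,
      Matrix.cons_val_one, Matrix.cons_val]
    linear_combination (r ^ 2) * hsq θ
  have hdot : ∀ θ, (cpt r θ - c) ⬝ᵥ ![v θ * Real.cos θ, v θ * Real.sin θ, -u θ] =
      v θ * (r - c 0 * Real.cos θ - c 1 * Real.sin θ) + u θ * c 2 := by
    intro θ
    unfold cpt
    simp only [dotProduct, Fin.sum_univ_three, Pi.sub_apply, Matrix.cons_val_zero,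
      Matrix.cons_val_one, Matrix.cons_val]
    linear_combination (v θ * r) * hsq θ
  have hcq : Continuous fun θ : ℝ => a - b₁ * Real.cos θ - b₂ * Real.sin θ := by fun_prop
  have hcg : Continuous fun θ : ℝ => 1 / (a - b₁ * Real.cos θ - b₂ * Real.sin θ) :=
    continuous_const.div hcq fun θ => (hqpos θ).ne'
  have hcg' : Continuous fun θ : ℝ =>
      1 / 2 + D / 2 * (1 / (a - b₁ * Real.cos θ - b₂ * Real.sin θ)) :=
    continuous_const.add (continuous_const.mul hcg)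
  have hb : ∀ θ : ℝ, ‖r * ((cpt r θ - c) ⬝ᵥ ![v θ * Real.cos θ, v θ * Real.sin θ, -u θ]) /
      (sqd (cpt r θ) c + ε ^ 2)‖ ≤
      1 / 2 + D / 2 * (1 / (a - b₁ * Real.cos θ - b₂ * Real.sin θ)) := by
    intro θ
    rw [Real.norm_eq_abs, hdot, hsqd]
    refine lcb_pt hr (hqpos θ) hDpos hDsq ?_ (huv θ) (by positivity)
    rw [hT, hb₁, hb₂]
    ring
  have hkey := intervalIntegral.norm_integral_le_of_norm_le (μ := volume)
    (a := 0) (b := 2 * Real.pi) (by positivity)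
    (Filter.Eventually.of_forall fun θ _ => hb θ) (hcg'.intervalIntegrable 0 (2 * Real.pi))
  rw [Real.norm_eq_abs] at hkey
  refine le_trans hkey (le_of_eq ?_)
  have e1 : IntervalIntegrable (fun _ : ℝ => (1 / 2 : ℝ)) volume 0 (2 * Real.pi) :=
    continuous_const.intervalIntegrable _ _
  have e2 : IntervalIntegrable (fun θ : ℝ =>
      D / 2 * (1 / (a - b₁ * Real.cos θ - b₂ * Real.sin θ))) volume 0 (2 * Real.pi) :=
    (continuous_const.mul hcg).intervalIntegrable _ _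
  have e3 : ∫ θ in (0 : ℝ)..(2 * Real.pi),
      ((1 / 2 : ℝ) + D / 2 * (1 / (a - b₁ * Real.cos θ - b₂ * Real.sin θ))) =
      (∫ _θ in (0 : ℝ)..(2 * Real.pi), (1 / 2 : ℝ)) + ∫ θ in (0 : ℝ)..(2 * Real.pi),
        D / 2 * (1 / (a - b₁ * Real.cos θ - b₂ * Real.sin θ)) :=
    intervalIntegral.integral_add e1 e2
  rw [e3, intervalIntegral.integral_const, intervalIntegral.integral_const_mul, hpsn,
    smul_eq_mul]
  field_simp
  ring

end Pool.Agent.H17.AR
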