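import Pool.Agent.H61.AR.Targets

/-!
# (SML) the cap is small
-/

set_option autoImplicit false

open Set Function MeasureTheory Filter Topology
open scoped Manifold ContDiff Matrix

namespace Pool.Agent.H17.AR

open Pool.Agent.H60.CM Pool.Agent.H61.AR

theorem sml_int (D : Dat) (f : D.S → ℝ) (hf : Continuous f) : IntegrableOn f D.int D.μ := by
  have h1 : Integrable f D.μ := hf.integrable_of_hasCompactSupport (HasCompactSupport.of_compactSpace f)
  exact h1.integrableOn

theorem pf_SML (h1 : T_FLU) : T_SML := by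
  intro D γ s z hB hG hH hz hN har h2π σ hσ hσx
  by_contra hcon
  push Not at hcon
  have hpi := Real.pi_pos
  have hr : 0 < D.r := D.cmc.r_pos
  have hN2 : ∀ p, D.N p 2 = z - D.H * D.x p 2 := by
    intro p
    have h := congr_fun (hN p) 2
    have h' : D.N p 2 + D.H * D.x p 2 = z := h
    linarith
  have hnz : ∀ θ, nz D γ θ = z := by
    intro θ
    unfold nz
    rw [hN2, hB.eq θ]
    have : cpt D.r θ 2 = 0 := rfl
    rw [this, mul_zero, sub_zero]
  have hint : ∫ θ in (0 : ℝ)..(2 * Real.pi), nz D γ θ = 2 * Real.pi * z := by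
    simp only [hnz]
    rw [intervalIntegral.integral_const, smul_eq_mul, sub_zero]
  rw [hint] at h2π
  have hz0 : z ≠ 0 := by
    rintro rfl
    rw [zero_div, mul_zero] at hcon
    exact lt_irrefl _ hcon
  have hzp : 0 < |z| := abs_pos.2 hz0
  have hsz1 : |z| ≤ s * z := by
    have h3 : 2 * Real.pi ≤ 2 * Real.pi * (1 - |z|) + s * (2 * Real.pi * z) := by linarith
    have h4 : 2 * Real.pi * |z| ≤ 2 * Real.pi * (s * z) := by linarith
    exact le_of_mul_le_mul_left h4 (by positivity)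
  have hsz2 : s * z ≤ |z| := by
    have h3 : s * z ≤ |s * z| := le_abs_self _
    rw [abs_mul] at h3
    have h4 : |s| * |z| ≤ 1 * |z| := mul_le_mul_of_nonneg_right hG.1 (abs_nonneg z)
    linarith
  have hsz : s * z = |z| := le_antisymm hsz2 hsz1
  have hss : s * s = 1 := by
    have h3 : (s * z) * (s * z) = z * z := by rw [hsz, abs_mul_abs_self]
    have h4 : (s * s - 1) * (z * z) = 0 := by linear_combination h3
    rcases mul_eq_zero.1 h4 with h5 | h5
    · linarith
    · exact absurd (mul_self_eq_zero.1 h5) hz0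
  have hσσ : σ * σ = 1 := by
    rcases hσ with h | h <;> rw [h] <;> norm_num
  have hH2 : 0 < D.H ^ 2 := by positivity
  have hσzH : 0 < σ * z * D.H := by
    have h3 : σ * (z / D.H) * D.H ^ 2 = σ * z * D.H := by field_simp
    rw [← h3]
    exact mul_pos hcon hH2
  have hsHσ : 0 < s * D.H * σ := by
    have h3 : 0 < (s * z) * (σ * z * D.H) := mul_pos (by rw [hsz]; exact hzp) hσzH
    have h4 : (s * z) * (σ * z * D.H) = (s * D.H * σ) * z ^ 2 := by ring
    rw [h4] at h3
    exact pos_of_mul_pos_left h3 (by positivity)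
  -- the flux
  have hflu := (h1 D γ s hB hG).1
  have hxc : Continuous fun p => D.x p 2 := (continuous_apply 2).comp D.cmc.x_smooth.continuous
  have hsplit : ∫ p in D.int, D.N p 2 ∂D.μ = z * ar D - D.H * ∫ p in D.int, D.x p 2 ∂D.μ := by
    simp only [hN2]
    have e1 : IntegrableOn (fun _ : D.S => z) D.int D.μ := sml_int D _ continuous_const
    have e2 : IntegrableOn (fun p : D.S => D.H * D.x p 2) D.int D.μ :=
      sml_int D _ (continuous_const.mul hxc)
    have e3 : ∫ p in D.int, (z - D.H * D.x p 2) ∂D.μ =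
        (∫ _p in D.int, z ∂D.μ) - ∫ p in D.int, D.H * D.x p 2 ∂D.μ := integral_sub e1 e2
    rw [e3, setIntegral_const, integral_const_mul, smul_eq_mul, mul_comm z]
    rfl
  rw [hsplit] at hflu
  have hpos : 0 ≤ ∫ p in D.int, s * D.H * D.x p 2 ∂D.μ := by
    refine integral_nonneg fun p => ?_
    change 0 ≤ s * D.H * D.x p 2
    have h3 : s * D.H * D.x p 2 = (s * D.H * σ) * (σ * D.x p 2) := by
      linear_combination (-(s * D.H * D.x p 2)) * hσσ
    rw [h3]
    exact mul_nonneg hsHσ.le (hσx p)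
  rw [integral_const_mul] at hpos
  have hkey : Real.pi * D.r ^ 2 ≤ |z| * ar D := by
    have h3 : s * (z * ar D - D.H * ∫ p in D.int, D.x p 2 ∂D.μ) =
        s * (s * (Real.pi * D.r ^ 2)) := by rw [hflu]
    have h4 : s * (s * (Real.pi * D.r ^ 2)) = Real.pi * D.r ^ 2 := by
      rw [← mul_assoc, hss, one_mul]
    rw [h4] at h3
    have h5 : s * (z * ar D - D.H * ∫ p in D.int, D.x p 2 ∂D.μ) =
        (s * z) * ar D - s * D.H * ∫ p in D.int, D.x p 2 ∂D.μ := by ring
    rw [h5, hsz] at h3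
    linarith
  have h6 : Real.pi * D.r ^ 2 * D.H ^ 2 ≤ |z| * (2 * Real.pi * (1 - |z|)) := by
    have h7 : Real.pi * D.r ^ 2 * D.H ^ 2 ≤ |z| * ar D * D.H ^ 2 :=
      mul_le_mul_of_nonneg_right hkey hH2.le
    have h8 : |z| * (D.H ^ 2 * ar D) ≤ |z| * (2 * Real.pi * (1 - |z|)) :=
      mul_le_mul_of_nonneg_left har hzp.le
    linarith
  have hzz : |z| ^ 2 = 1 - D.r ^ 2 * D.H ^ 2 := by rw [sq_abs, hz]
  have h9 : Real.pi * (1 - |z| ^ 2) ≤ Real.pi * (2 * |z| * (1 - |z|)) := by
    have h10 : Real.pi * (1 - |z| ^ 2) = Real.pi * D.r ^ 2 * D.H ^ 2 := by rw [hzz]; ring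
    rw [h10]
    linarith
  have h11 : 1 - |z| ^ 2 ≤ 2 * |z| * (1 - |z|) := le_of_mul_le_mul_left h9 hpi
  have h12 : (1 - |z|) ^ 2 ≤ 0 := by linarith
  have h13 : 1 - |z| = 0 := by
    have : (1 - |z|) ^ 2 = 0 := le_antisymm h12 (sq_nonneg _)
    exact pow_eq_zero_iff (two_ne_zero) |>.1 this
  have h14 : |z| = 1 := by linarith
  rw [h14] at hzz
  have h15 : 0 < D.r ^ 2 * D.H ^ 2 := by positivity
  linarith

end Pool.Agent.H17.AR
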